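import Pool.Agent.H896.SI.Infl

/-!
# Stark's rational conjecture of order `r`: reduction to cyclic extensions and explicit sets of places

`OrderData F K` are the data of the question, `OrderData.Q1` is the question in Rubin's form.
-/

set_option autoImplicit false

namespace Pool.Agent.Results.MP_d9bae3_nt.InertUnramifiedAndOddCases

open NumberField Pool.Agent.Q20.SI Pool.Agent.H896.SI

/-- **Theorem.** Let `F` be a number field. Suppose that the conjecture Q1 holds for all cyclic
extensions `L/E` of finite extensions `E` of `F` which are unramified at all finite places, with `S`
consisting of the archimedean places and one prime, inert in `L` (`UnramifiedInert F`).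
Then Q1 holds for all the data over `F` (all abelian extensions `K/F`, all `S`, `T` and `r`) if and only
if it holds for the cyclic extensions `L/F` in which the complex conjugations at all places above
the real places of `F` are the same automorphism `c ≠ 1` (`L` is a CM field if `F` is totally real), with
`S` consisting of the archimedean places, the ramified primes and one inert prime; here `r` is the number
of complex places of `F`, the smallest value which is possible over `F` (`OddCyclic F`).
If `F` is totally real, then `r = 0` in this last case, which is the theorem of Siegel. -/
theorem result (F : Type) [Field F] [NumberField F] (h : UnramifiedInert F) :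
    (∀ (K : Type) [Field K] [NumberField K] [Algebra F K] [IsGalois F K] (D : OrderData F K),
      D.Q1) ↔ OddCyclic F :=
  ⟨fun hQ _ _ _ _ _ D _ _ _ _ => hQ _ D, fun hM _ _ _ _ _ D =>
    (order_q1_iff D).2 fun χ _ _ σ => starkFor_sharp h hM χ σ⟩

end Pool.Agent.Results.MP_d9bae3_nt.InertUnramifiedAndOddCases
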