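import Pool.Agent.H367.OS.OArt
import Mathlib

/-!
# Stark's rational conjecture for abelian extensions and one double sequence of Artin motives

A relation `r` of size `m` is one of the equations `x_i x_j = x_l`, `x_i + x_j = x_l`, `x_i = 1` with
`i, j, l < m`; the relations are numbered, the number of `r` is `ν(r)` (`relNum`). Let `G_m` be the
following polynomial with integral coefficients (`univG ℤ m`). There are variables `x_i` and `z_ij` for
`i, j < m`, a variable `c_r` for every relation `r`, and variables `y_{r,l}` for all relations `r` and
`l < (m + 1) 2 ^ ν(r)`. The equations (`eqnG`) are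

  `z_ij - x_i x_j`,  `c_r ^ 2 - c_r`,  `c_r ρ_r`,  `(1 - c_r) y_{r,l}`,

where `ρ_r` is the linear polynomial `z_ij - x_l`, `x_i + x_j - x_l` or `x_i - 1` of the relation.
`G_m` is the sum of the equations multiplied by further variables `t_e`, one for each equation. It has
degree three. Let `C_m` be the affine cubic hypersurface `G_m = 1` (`cubG R m` over the ring `R`); it is
smooth over the integers.

Let `M` be the category of motives over `ℚ` in the sense of André, a semisimple abelian category with
Tate twists `N ↦ N(a)`. For a separated scheme `X` of finite type over `ℚ` let `D.G w j X = Gr^W_w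
H^j_c(X)` be the part of weight `w` of the cohomology with compact supports, a motive over `ℚ`; for
smooth projective `Y` it is `h^j(Y)` if `j = w`, and zero otherwise. The motives `h^0(Y)` and their
direct factors are the Artin motives over `ℚ` (representations of `Gal(ℚ̄/ℚ)` over `ℚ` with finite
image).

Let `E_m` be the number of the equations, and for `N ∈ ℕ` let `e = (m + 1) N + E_m - 1`
(`esh m N`). Let `V_{m,N}` be the
motive `Gr^W_{2e} H^{2e+1}_c(C_m)(e)` (`single0 D m N`).

The type `I` consists of the irreducible complex characters of the finite quotients of `Gal(ℚ̄/ℚ)`,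
and `occ χ N` says that `χ` occurs in `N ⊗ ℂ`. For a finite Galois extension `L` of `ℚ` let `irr L` be
the set of the irreducible characters of `Gal(L/ℚ)`. These are the characters that occur in `h^0(Spec
L)`. The characters which occur in `h^0(Y)` are characters of `Gal(L/ℚ)` if `L` contains the fields of
constants of the connected components of `Y` (`ArtinMotives`). The type `C` consists of all data `(F,
H, S, T, r)` of the question, and `Q1 c` is the assertion of the question for `c`. For `χ` in `I` let
`Stark χ` be Stark's conjecture for `χ` over `ℚ` (`A_S(χ, φ)^σ = A_S(χ^σ, φ)` for all automorphisms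
`σ` of `ℂ`, where `A_S(χ, φ)` is the quotient of the Stark regulator and the leading coefficient of
the Artin `L`-function at `s = 0`; it does not depend on the set `S` of places and on the choice of
`φ`).

For a datum `c` question Q1 is Stark's conjecture for the characters `ψ` of `Gal(H/F)` with `r(ψ) = r`
(Tate, Rubin). As Stark's conjecture is preserved by induction, inflation and sums of characters, it
follows from Stark's conjecture for all irreducible characters of `Gal(L/ℚ)` for the Galois closure
`L` of `H` over `ℚ` (hypothesis `induction`). Every nontrivial `ψ` of degree one, seen as a faithful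
character of the Galois group of its field `H`, has `r(ψ) = r` for all large `S`. So by Brauer's
theorem on induced characters (the coefficients are integers, and `A_S` is multiplicative) question Q1
for all data implies Stark's conjecture for all `χ` in `I` (hypothesis `irreducible`; the trivial
character is known).

**Theorem.** (1) For all `m ≥ 1` and `N` the motive `V_{m,N}` is an Artin motive: the characters that
occur in it are characters of `Gal(L/ℚ)` for one finite Galois extension `L` of `ℚ`. For every finite
Galois extension `L` of `ℚ` and all large `m` there is an `N` such that all irreducible characters of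
`Gal(L/ℚ)` occur in `V_{m,N}`.

(2) Question Q1 has a positive answer for all data if and only if, for infinitely many `m`, Stark's
conjecture is true for the irreducible characters of `Gal(ℚ̄/ℚ)` which occur in `V_{m,N}`, for all `N`.

(3) For every datum `c = (F, H, S, T, r)` and all large `m` there is an `N` such that Stark's
conjecture for the irreducible characters in the single motive `V_{m,N}` implies question Q1 for `c`.

(4) If the answer to question Q1 is negative, then for all large `m` there are an `N` and an irreducible
character which occurs in `V_{m,N}` for which Stark's conjecture is false.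

(5) `G_m` has integral coefficients and degree at most three, and `C_m` is smooth over all rings.

The hypotheses on the motives are standard (`IsMot`): exact sequences, affine bundles, disjoint unions,
the cohomology of affine spaces, the weights of `H^j_c(X)` are between `0` and `2 dim X`, monomorphisms
split, `Gr^W_w H^j_c(X)` is a direct factor of `h^w(Y)` for some smooth projective `Y` (it is a
subquotient, by the weight spectral sequence), and every smooth projective scheme has an affine bundle
whose total space is affine (Jouanolou).

Idea of the proof. The projection of `C_m` to the affine space with the coordinates `x, z, c, y` is an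
affine bundle over the complement of the zero set `W_m` of the equations. The scheme `W_m` is the
disjoint union, over all sets `s` of relations (`c_r = 1` for `r ∈ s` and `c_r = 0` for the others), of
the products `X_s × 𝔸 ^ ((m + 1) N(s))`, where `X_s` is the affine scheme defined by the relations in
`s` and `N(s) = ∑_{r ∈ s} 2 ^ ν(r)`. The numbers `N(s)` are different, and the dimension of `X_s` is at
most `m`. So the invariant of `W_m` with the index `q + (m + 1) N(s)`, `0 ≤ q ≤ m`, is the invariant of
`X_s` with the index `q`; the other components do not contribute. Every affine scheme of finite type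
over a prime field is an `X_s`, for all large `m`.

The universal system of relations is the one of helper854 (`Pool.Agent.H854.SQ`).
-/

set_option autoImplicit false

open CategoryTheory CategoryTheory.Limits AlgebraicGeometry Pool.Agent.Y116.UV Pool.Agent.Z125.UN
  Pool.Agent.Q193.LT Pool.Agent.H854.SQ Pool.Agent.H367.OS

universe w v u



namespace Pool.Agent.Results.MP_d9bae3_nt.PiecesOfOneSequence

/-- Question Q1 for the data `c` (`Q1 c`), and Stark's conjecture for the irreducible characters `χ` of
the absolute Galois group of `ℚ`. -/
structure Describes {I C : Type w} (irr : ∀ (L : Type) [Field L] [NumberField L], Set I)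
    (Q1 : C → Prop) (Stark : I → Prop) : Prop where
  irreducible : (∀ c : C, Q1 c) → ∀ χ : I, Stark χ
  induction : ∀ c : C, ∃ (L : Type) (_ : Field L) (_ : NumberField L), IsGalois ℚ L ∧
    ((∀ χ ∈ irr L, Stark χ) → Q1 c)

/-- **Stark's rational conjecture for abelian extensions and one double sequence of Artin motives.** See
the explanations above. -/
theorem result {M : Type u} [Category.{v} M] [Abelian M] {D : Pieces ℚ M} (h : IsMot D)
    {I C : Type w} {occ : I → M → Prop} {irr : ∀ (L : Type) [Field L] [NumberField L], Set I}
    (ha : ArtinMotives D occ irr) {Q1 : C → Prop} {Stark : I → Prop}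
    (hS : Describes irr Q1 Stark) :
    ((∀ m, 1 ≤ m → ∀ N : ℕ, ∃ (L : Type) (_ : Field L) (_ : NumberField L),
        IsGalois ℚ L ∧ {χ | occ χ (single0 D m N)} ⊆ irr L) ∧
      ∀ (L : Type) [Field L] [NumberField L] [IsGalois ℚ L], ∀ᶠ m in Filter.atTop, ∃ N : ℕ,
        irr L ⊆ {χ | occ χ (single0 D m N)}) ∧
    ((∀ c : C, Q1 c) ↔
      ∃ᶠ m in Filter.atTop, ∀ (N : ℕ) (χ : I), occ χ (single0 D m N) → Stark χ) ∧
    (∀ c : C, ∀ᶠ m in Filter.atTop, ∃ N : ℕ,
      (∀ χ : I, occ χ (single0 D m N) → Stark χ) → Q1 c) ∧
    ((∃ c : C, ¬ Q1 c) → ∀ᶠ m in Filter.atTop, ∃ (N : ℕ) (χ : I),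
      occ χ (single0 D m N) ∧ ¬ Stark χ) ∧
    ∀ m : ℕ, (univG ℤ m).totalDegree ≤ 3 ∧
      ∀ (R : Type) [CommRing R], MvPolynomial.map (Int.castRingHom R) (univG ℤ m) = univG R m ∧
        Smooth (cubG R m).hom := by
  obtain ⟨h1, h2, h3⟩ := artin_decides h ha (P := fun S => ∀ χ ∈ S, Stark χ)
    fun S T hST hT χ hχ => hT χ (hST hχ)
  have h4 : ∀ c : C, ∀ᶠ m in Filter.atTop, ∃ N : ℕ,
      (∀ χ : I, occ χ (single0 D m N) → Stark χ) → Q1 c := by
    intro c
    obtain ⟨L, _, _, _, hL⟩ := hS.induction c
    filter_upwards [h2 L] with m hm
    obtain ⟨N, hN⟩ := hm
    exact ⟨N, fun g => hL fun χ hχ => g χ (hN hχ)⟩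
  refine ⟨⟨h3, h2⟩, ⟨fun g => ?_, fun g c => ?_⟩, h4, ?_, cubG_facts⟩
  · exact Filter.Frequently.of_forall fun m N χ _ => hS.irreducible g χ
  · obtain ⟨m, hm1, N, hN⟩ := (g.and_eventually (h4 c)).exists
    exact hN (hm1 N)
  · rintro ⟨c, hc⟩
    filter_upwards [h4 c] with m hm
    obtain ⟨N, hN⟩ := hm
    by_contra hcon
    push Not at hcon
    exact hc (hN fun χ hχ => hcon N χ hχ)

end Pool.Agent.Results.MP_d9bae3_nt.PiecesOfOneSequence
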